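import Mathlib
import Pool.Agent.H19.SlowOsc

set_option autoImplicit false

namespace Pool.Agent.Results.MP_5c36f9_al.SymmetricGroups

open Set Cardinal Pool.Agent.H19.SlowOsc

universe u

/-- Slowly oscillating functions on the finitary ballean of `G`. -/
def SlowlyOscillating {G : Type*} [Group G] (f : G → ℝ) : Prop :=
  ∀ F : Set G, F.Finite → ∀ ε > 0, ∃ B : Set G, B.Finite ∧
    ∀ x ∉ B, Metric.ediam (f '' insert x ((· * x) '' F)) < ENNReal.ofReal ε

/-- Functions constant at infinity. -/
def ConstantAtInfinity {G : Type*} (f : G → ℝ) : Prop :=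
  ∃ c : ℝ, ∀ O ∈ nhds c, (f ⁻¹' O)ᶜ.Finite

/-- Every slowly oscillating function on the full permutation group `S_X` of any set `X` is
constant at infinity. -/
theorem result (X : Type u) (f : Equiv.Perm X → ℝ) (hf : SlowlyOscillating f) :
    ConstantAtInfinity f := by
  classical
  rcases finite_or_infinite X with h | h
  · exact ⟨0, fun _ _ => toFinite _⟩
  obtain ⟨K, h1, h2, h3⟩ := perm (X := X)
  have e : ∀ S : Set (Equiv.Perm X), 𝔠 ≤ #S → ¬ S.Countable := fun S h h' =>
    (aleph0_lt_continuum.trans_le h).not_ge (le_aleph0_iff_set_countable.mpr h')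
  refine const (fun g ε hε => ?_) K (e _ h1) (fun h => e _ h2 h.countable)
    fun g => (h3 g).imp (e _) (e _)
  obtain ⟨B, hB, h⟩ := hf {g} (finite_singleton g) ε hε
  refine hB.subset fun x hx => by_contra fun h4 => not_le.mpr (show ε < |f (g * x) - f x| from hx) ?_
  have := (Metric.edist_le_ediam_of_mem (mem_image_of_mem f (mem_insert_of_mem _
    (mem_image_of_mem (· * x) (mem_singleton g))))
    (mem_image_of_mem f (mem_insert _ _))).trans (h x h4).le
  rwa [edist_le_ofReal hε.le, Real.dist_eq] at this

end Pool.Agent.Results.MP_5c36f9_al.SymmetricGroups
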